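import Pool.Agent.H211.HY.Stm1

/-!
# HY-TG1: targets at critical points
-/

set_option autoImplicit false

open Topology Filter Metric Set MeasureTheory Polynomial

namespace Pool.Agent.H337.HY211

open Pool.Agent.H790R3.RB Pool.Agent.H211.HY

/-- a differentiable function which is almost constant on a ball is Lipschitz on a smaller ball -/
lemma lip {E : Type*} [NormedAddCommGroup E] [NormedSpace ℂ E] {f : E → ℂ} {a : ℂ} {r : ℝ}
    (h0 : 0 < r) (hf : DifferentiableOn ℂ f (ball 0 r)) (hb : ∀ s ∈ ball (0 : E) r, ‖f s - a‖ < 1 / 4)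
    {s s' : E} (hs : s ∈ ball (0 : E) (r / 4)) (hs' : s' ∈ ball (0 : E) (r / 4)) :
    ‖f s' - f s‖ ≤ 4 / r * ‖s' - s‖ := by
  rw [mem_ball_zero_iff] at hs hs'
  by_cases hne : s' = s
  · rw [hne]; simp
  have hd : 0 < ‖s' - s‖ := norm_pos_iff.2 (sub_ne_zero.2 hne)
  have hd2 : ‖s' - s‖ < r / 2 := by
    have := norm_sub_le s' s
    linarith
  set R : ℝ := (r / 2) / ‖s' - s‖ with hR
  have hR1 : 1 < R := by
    rw [hR, one_lt_div hd]
    exact hd2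
  have hmem : ∀ t ∈ ball (0 : ℂ) R, s + t • (s' - s) ∈ ball (0 : E) r := by
    intro t ht
    rw [mem_ball_zero_iff] at ht ⊢
    have h1 : ‖t‖ * ‖s' - s‖ < r / 2 := by
      rwa [hR, lt_div_iff₀ hd] at ht
    calc ‖s + t • (s' - s)‖ ≤ ‖s‖ + ‖t • (s' - s)‖ := norm_add_le _ _
      _ = ‖s‖ + ‖t‖ * ‖s' - s‖ := by rw [norm_smul]
      _ < r := by linarith
  have hg : DifferentiableOn ℂ (fun t : ℂ => f (s + t • (s' - s))) (ball (0 : ℂ) R) := by
    intro t ht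
    have h1 : DifferentiableAt ℂ f (s + t • (s' - s)) :=
      (hf _ (hmem t ht)).differentiableAt (isOpen_ball.mem_nhds (hmem t ht))
    have h2 : DifferentiableAt ℂ (fun t : ℂ => s + t • (s' - s)) t := by fun_prop
    exact (DifferentiableAt.comp t h1 h2).differentiableWithinAt
  have h0mem : (0 : ℂ) ∈ ball (0 : ℂ) R := mem_ball_self (by linarith)
  have h1mem : (1 : ℂ) ∈ ball (0 : ℂ) R := by
    rw [mem_ball_zero_iff, norm_one]
    exact hR1
  have hmaps : MapsTo (fun t : ℂ => f (s + t • (s' - s))) (ball (0 : ℂ) R)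
      (closedBall ((fun t : ℂ => f (s + t • (s' - s))) 0) (1 / 2)) := by
    intro t ht
    rw [mem_closedBall, dist_eq_norm]
    have h1 := hb _ (hmem t ht)
    have h2 := hb _ (hmem 0 h0mem)
    have h3 : f (s + t • (s' - s)) - f (s + (0 : ℂ) • (s' - s)) =
        (f (s + t • (s' - s)) - a) - (f (s + (0 : ℂ) • (s' - s)) - a) := by ring
    show ‖f (s + t • (s' - s)) - f (s + (0 : ℂ) • (s' - s))‖ ≤ 1 / 2
    rw [h3]
    have h4 := norm_sub_le (f (s + t • (s' - s)) - a) (f (s + (0 : ℂ) • (s' - s)) - a)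
    linarith
  have h5 := Complex.dist_le_div_mul_dist_of_mapsTo_ball hg hmaps h1mem
  have h6 : dist (f (s + (1 : ℂ) • (s' - s))) (f (s + (0 : ℂ) • (s' - s))) ≤
      1 / 2 / R * dist (1 : ℂ) 0 := h5
  rw [one_smul, zero_smul, add_zero, add_sub_cancel, dist_eq_norm, dist_zero_right, norm_one,
    mul_one] at h6
  refine h6.trans ?_
  rw [hR]
  have h7 : 1 / 2 / (r / 2 / ‖s' - s‖) = 1 / r * ‖s' - s‖ := by
    field_simp
  rw [h7]
  have h8 : 1 / r ≤ 4 / r := by gcongr; norm_num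
  gcongr

lemma cr_le {p : ℂ × ℂ} {c : ℂ} {m : ℝ} (hm : 0 < m) (hp : p ≠ 0) (h1 : ‖p.1‖ ≤ m)
    (h2 : ‖p.2‖ ≤ m) : ‖cr p (c, 1)‖ ≤ cho p (c, 1) * (2 * m * (1 + ‖c‖)) := by
  have hN : 0 < N2 p := by
    unfold N2
    by_contra hlt
    rw [not_lt] at hlt
    apply hp
    have h3 : ‖p.1‖ ^ 2 = 0 := by nlinarith [sq_nonneg ‖p.1‖, sq_nonneg ‖p.2‖]
    have h4 : ‖p.2‖ ^ 2 = 0 := by nlinarith [sq_nonneg ‖p.1‖, sq_nonneg ‖p.2‖]
    exact Prod.ext (norm_eq_zero.1 (pow_eq_zero_iff (by norm_num) |>.1 h3))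
      (norm_eq_zero.1 (pow_eq_zero_iff (by norm_num) |>.1 h4))
  have hN' : N2 (c, 1) = ‖c‖ ^ 2 + 1 := by simp [N2]
  have hNc : 0 < N2 (c, 1) := by rw [hN']; positivity
  have hs : 0 < Real.sqrt (N2 p * N2 (c, 1)) := Real.sqrt_pos.2 (mul_pos hN hNc)
  have h5 : ‖cr p (c, 1)‖ = cho p (c, 1) * Real.sqrt (N2 p * N2 (c, 1)) := by
    unfold cho
    rw [div_mul_cancel₀ _ hs.ne']
  rw [h5]
  have hch : 0 ≤ cho p (c, 1) := by unfold cho; positivity
  refine mul_le_mul_of_nonneg_left ?_ hch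
  refine Real.sqrt_le_iff.2 ⟨by positivity, ?_⟩
  have h6 : N2 p ≤ 2 * m ^ 2 := by
    unfold N2
    nlinarith [norm_nonneg p.1, norm_nonneg p.2]
  have h7 : N2 (c, 1) ≤ (1 + ‖c‖) ^ 2 := by
    rw [hN']
    nlinarith [norm_nonneg c]
  calc N2 p * N2 (c, 1) ≤ (2 * m ^ 2) * (1 + ‖c‖) ^ 2 :=
        mul_le_mul h6 h7 hNc.le (by positivity)
    _ ≤ (2 * m * (1 + ‖c‖)) ^ 2 := by
        have : 0 ≤ m ^ 2 * (1 + ‖c‖) ^ 2 := by positivity
        nlinarith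

theorem t_TG1 : S_TG1 := by
  intro d k x₀ c₀ m X c ρ F
  have hcont : ∀ᶠ s in 𝓝 (0 : Fin k → ℂ), ∀ i, ‖c i s - c₀ i‖ < 1 / 4 := by
    rw [Filter.eventually_all]
    intro i
    have h1 : ContinuousAt (c i) 0 :=
      (F.cdf i).continuousOn.continuousAt (ball_mem_nhds _ F.ρ0)
    have h2 := Metric.tendsto_nhds.1 h1 (1 / 4) (by norm_num)
    rw [F.c0 i] at h2
    filter_upwards [h2] with s hs
    rwa [dist_eq_norm] at hs
  obtain ⟨r₀, hr₀, hball⟩ := Metric.eventually_nhds_iff_ball.1 hcont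
  obtain ⟨r, hr, hrρ, hrr⟩ : ∃ r : ℝ, 0 < r ∧ r ≤ ρ ∧ r ≤ r₀ :=
    ⟨min ρ r₀, lt_min F.ρ0 hr₀, min_le_left _ _, min_le_right _ _⟩
  have hb : ∀ i, ∀ s ∈ ball (0 : Fin k → ℂ) r, ‖c i s - c₀ i‖ < 1 / 4 := fun i s hs =>
    hball s (ball_subset_ball hrr hs) i
  have hlip : ∀ i, ∀ s ∈ ball (0 : Fin k → ℂ) (r / 4), ∀ s' ∈ ball (0 : Fin k → ℂ) (r / 4),
      ‖c i s - c i s'‖ ≤ 4 / r * ‖s - s'‖ := fun i s hs s' hs' =>
    lip hr ((F.cdf i).mono (ball_subset_ball hrρ)) (hb i) hs' hs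
  set A : ℝ := 4 * (1 + ∑ i, ‖c₀ i‖) with hA
  have hApos : 0 < A := by positivity
  have hAi : ∀ i, 4 * (1 + ‖c₀ i‖) ≤ A := fun i => by
    have h1 : ‖c₀ i‖ ≤ ∑ i, ‖c₀ i‖ :=
      Finset.single_le_sum (f := fun i => ‖c₀ i‖) (fun j _ => norm_nonneg _) (Finset.mem_univ i)
    rw [hA]
    linarith
  refine ⟨1 / 8, by norm_num, A, hApos, r / 4, by positivity, by linarith, 64 / r, ?_⟩
  intro p i hp hcho
  have hch : 0 ≤ cho p (c₀ i, 1) := by unfold cho; positivity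
  have hcr : cr p (c₀ i, 1) = p.1 - p.2 * c₀ i := by simp [cr]
  have hp12 : 0 < ‖p.1‖ ∨ 0 < ‖p.2‖ := by
    by_contra hh
    rw [not_or, norm_pos_iff, norm_pos_iff, not_not, not_not] at hh
    exact hp (Prod.ext hh.1 hh.2)
  by_cases ht : ‖p.1‖ ≤ ‖p.2‖
  · have hτ : tau p = true := by simp [tau, ht]
    have hp2 : 0 < ‖p.2‖ := by
      rcases hp12 with h | h
      · exact h.trans_le ht
      · exact h
    have hp2' : p.2 ≠ 0 := norm_pos_iff.1 hp2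
    refine ⟨c i, ?_, ?_, ?_⟩
    · intro s hs s' hs'
      refine (hlip i s hs s' hs').trans ?_
      have h8 : 4 / r ≤ 64 / r := by gcongr; norm_num
      gcongr
    · rw [F.c0 i, zc, hτ, lc, if_pos rfl]
      have h1 : c₀ i - p.1 / p.2 = -(cr p (c₀ i, 1)) / p.2 := by
        rw [hcr]
        field_simp
        ring
      rw [h1, norm_div, norm_neg, div_le_iff₀ hp2]
      refine (cr_le hp2 hp ht le_rfl).trans ?_
      have h2 : cho p (c₀ i, 1) * (2 * ‖p.2‖ * (1 + ‖c₀ i‖)) =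
          (2 * (1 + ‖c₀ i‖)) * (cho p (c₀ i, 1) * ‖p.2‖) := by ring
      rw [h2, mul_assoc A]
      have h3 : 2 * (1 + ‖c₀ i‖) ≤ A := by linarith [hAi i, norm_nonneg (c₀ i)]
      gcongr
    · intro s hs
      rw [hτ]
      simp [iot, cr]
  · have hτ : tau p = false := by simp [tau, ht]
    rw [not_le] at ht
    have hp1 : 0 < ‖p.1‖ := (norm_nonneg _).trans_lt ht
    have hp1' : p.1 ≠ 0 := norm_pos_iff.1 hp1
    have hcl := cr_le (c := c₀ i) hp1 hp le_rfl ht.le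
    have hc0 : 1 / 2 < ‖c₀ i‖ := by
      by_contra hlt
      rw [not_lt] at hlt
      have h1 : ‖p.1‖ - ‖p.2‖ * ‖c₀ i‖ ≤ ‖cr p (c₀ i, 1)‖ := by
        rw [hcr, ← norm_mul]
        exact norm_sub_norm_le _ _
      have h2 : ‖p.2‖ * ‖c₀ i‖ ≤ ‖p.1‖ * (1 / 2) :=
        mul_le_mul ht.le hlt (norm_nonneg _) (norm_nonneg _)
      have h3 : cho p (c₀ i, 1) * (2 * ‖p.1‖ * (1 + ‖c₀ i‖)) ≤
          (1 / 8) * (2 * ‖p.1‖ * (1 + 1 / 2)) := by gcongr
      linarith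
    have hcs : ∀ s ∈ ball (0 : Fin k → ℂ) (r / 4), 1 / 4 < ‖c i s‖ := by
      intro s hs
      have h1 := hb i s (ball_subset_ball (by linarith) hs)
      have h2 : ‖c₀ i‖ - ‖c i s‖ ≤ ‖c i s - c₀ i‖ := by
        rw [norm_sub_rev]
        exact norm_sub_norm_le _ _
      linarith
    have hcs0 : ∀ s ∈ ball (0 : Fin k → ℂ) (r / 4), c i s ≠ 0 := fun s hs =>
      norm_pos_iff.1 (lt_trans (by norm_num) (hcs s hs))
    refine ⟨fun s => (c i s)⁻¹, ?_, ?_, ?_⟩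
    · intro s hs s' hs'
      have h1 : (c i s)⁻¹ - (c i s')⁻¹ = -((c i s - c i s') / (c i s * c i s')) := by
        have := hcs0 s hs
        have := hcs0 s' hs'
        field_simp
        ring
      rw [h1, norm_neg, norm_div, norm_mul]
      have h2 : (1 / 16 : ℝ) ≤ ‖c i s‖ * ‖c i s'‖ := by
        have h3 := hcs s hs
        have h4 := hcs s' hs'
        nlinarith
      rw [div_le_iff₀ (by linarith)]
      refine (hlip i s hs s' hs').trans ?_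
      calc 4 / r * ‖s - s'‖ = 64 / r * ‖s - s'‖ * (1 / 16) := by ring
        _ ≤ 64 / r * ‖s - s'‖ * (‖c i s‖ * ‖c i s'‖) := by gcongr
    · show ‖(c i 0)⁻¹ - zc p‖ ≤ A * cho p (c₀ i, 1)
      rw [F.c0 i, zc, hτ, lc, if_neg (by simp)]
      have hne : c₀ i ≠ 0 := norm_pos_iff.1 (lt_trans (by norm_num) hc0)
      have h1 : (c₀ i)⁻¹ - p.2 / p.1 = cr p (c₀ i, 1) / (c₀ i * p.1) := by
        rw [hcr]
        field_simp
      rw [h1, norm_div, norm_mul, div_le_iff₀ (by positivity)]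
      refine hcl.trans ?_
      calc cho p (c₀ i, 1) * (2 * ‖p.1‖ * (1 + ‖c₀ i‖))
          = (4 * (1 + ‖c₀ i‖)) * cho p (c₀ i, 1) * ((1 / 2) * ‖p.1‖) := by ring
        _ ≤ A * cho p (c₀ i, 1) * (‖c₀ i‖ * ‖p.1‖) := by
            have := hAi i
            gcongr
    · intro s hs
      rw [hτ]
      have := hcs0 s hs
      simp [iot, cr, this]

end Pool.Agent.H337.HY211
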